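import Pool.Agent.H17.RX.Stm

set_option autoImplicit false
open Filter Topology MeasureTheory
open scoped ComplexConjugate ENNReal

namespace Pool.Agent.H17.RX

/-- `pr u` as a continuous linear map -/
noncomputable def prL {d n : ℕ} (u : Fin n → F d) : F d →L[ℂ] F d :=
  ∑ b, (innerSL ℂ (u b)).smulRight (u b)

lemma prL_apply {d n : ℕ} (u : Fin n → F d) (x : F d) : prL u x = pr u x := by
  simp [prL, pr]

lemma pr_norm {d n : ℕ} {u : Fin n → F d} (hu : Orthonormal ℂ u) (x : F d) :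
    ‖pr u x‖ ≤ ‖x‖ := by
  have h1 : ‖pr u x‖ ^ 2 = ∑ b, ‖(inner ℂ (u b) x : ℂ)‖ ^ 2 := by
    rw [← inner_self_eq_norm_sq (𝕜 := ℂ)]
    unfold pr
    rw [hu.inner_sum]
    rw [map_sum]
    apply Finset.sum_congr rfl
    intro b _
    rw [← Complex.normSq_eq_conj_mul_self, ← Complex.normSq_eq_norm_sq]
    simp
  have h2 : ∑ b, ‖(inner ℂ (u b) x : ℂ)‖ ^ 2 ≤ ‖x‖ ^ 2 := hu.sum_inner_products_le x
  exact le_of_sq_le_sq (by rw [h1]; exact h2) (norm_nonneg _)

lemma pr_fix {d n : ℕ} {u : Fin n → F d} (hu : Orthonormal ℂ u) (a : Fin n → ℂ) (k : ℂ) :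
    pr u (k • ∑ b, a b • u b) = k • ∑ b, a b • u b := by
  unfold pr
  rw [Finset.smul_sum]
  apply Finset.sum_congr rfl
  intro c _
  rw [← Finset.smul_sum, inner_smul_right, hu.inner_right_fintype, smul_smul]

theorem claim (hSTEP : S_STEP) (hMOM : S_MOM) (N : ℕ) (ε : ℝ) (hN : 1 ≤ N) (hε : 0 < ε) (m : ℕ) :
    ∀ ρ : ℝ, 0 < ρ → ∃ n₀ : ℕ, 1 ≤ n₀ ∧ ∀ (d : ℕ) (u : Fin n₀ → F d) (f : Th n₀ → Th d),
      Sys n₀ u f → ∀ B : Finset (Th n₀), ρ * 4 ^ n₀ ≤ B.card → Big ε N d m (B.image f) := by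
  induction m with
  | zero =>
    intro ρ hρ
    refine ⟨1, le_rfl, ?_⟩
    intro d u f _ B hB
    have : 0 < (B.card : ℝ) := lt_of_lt_of_le (by positivity) hB
    have h2 : 0 < B.card := by exact_mod_cast this
    exact (Finset.card_pos.1 h2).image f
  | succ m ih =>
    intro ρ hρ
    have hNR : (1 : ℝ) ≤ N := by exact_mod_cast hN
    obtain ⟨n₁, hn₁, hIH⟩ := ih (ρ / (2 * N)) (by positivity)
    have hn₁R : (1 : ℝ) ≤ n₁ := by exact_mod_cast hn₁
    obtain ⟨s, hs⟩ := exists_nat_ge (8 * N / (ρ * ε ^ 2) + 1)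
    have hs1R : (1 : ℝ) ≤ s := le_trans (by
      have : 0 ≤ 8 * N / (ρ * ε ^ 2) := by positivity
      linarith) hs
    have hs1 : 1 ≤ s := by exact_mod_cast hs1R
    have hs2 : 8 * N ≤ s * (ρ * ε ^ 2) := by
      have : 8 * N / (ρ * ε ^ 2) ≤ s := by linarith
      rwa [div_le_iff₀ (by positivity)] at this
    refine ⟨n₁ * s, Nat.mul_pos hn₁ hs1, ?_⟩
    intro d u f hS B hB w S c hw hz hSn
    -- colour class
    obtain ⟨a, ha⟩ : ∃ a : Fin N, (B.card : ℝ) ≤ N * ((B.filter fun θ => c (f θ) = a).card : ℝ) := by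
      by_contra hcon
      push Not at hcon
      have h1 : B.card = ∑ a : Fin N, (B.filter fun θ => c (f θ) = a).card :=
        Finset.card_eq_sum_card_fiberwise (fun x _ => Finset.mem_univ _)
      have h2 : (B.card : ℝ) = ∑ a : Fin N, ((B.filter fun θ => c (f θ) = a).card : ℝ) := by
        exact_mod_cast h1
      have : Nonempty (Fin N) := ⟨⟨0, hN⟩⟩
      have h3 : ∑ a : Fin N, ((N : ℝ) * ((B.filter fun θ => c (f θ) = a).card : ℝ)) <
          ∑ _a : Fin N, (B.card : ℝ) :=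
        Finset.sum_lt_sum_of_nonempty Finset.univ_nonempty (fun a _ => hcon a)
      rw [← Finset.mul_sum, ← h2] at h3
      simp at h3
    set B1 := B.filter fun θ => c (f θ) = a with hB1
    set B2 := B1.filter fun θ => ‖(inner ℂ (zz (f θ)) (S (zz (f θ))) : ℂ)‖ ≤ ε with hB2
    have hbad := hMOM d (n₁ * s) (Nat.mul_pos hn₁ hs1) u f hS S hSn ε hε
    have hcard2 : (B1.card : ℝ) ≤ B2.card + 2 * 4 ^ (n₁ * s) / (((n₁ * s : ℕ) : ℝ) * ε ^ 2) := by
      have h1 : B1.card = B2.card + (B1.filter fun θ =>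
          ¬ ‖(inner ℂ (zz (f θ)) (S (zz (f θ))) : ℂ)‖ ≤ ε).card :=
        (Finset.card_filter_add_card_filter_not _).symm
      have h2 : (B1.filter fun θ => ¬ ‖(inner ℂ (zz (f θ)) (S (zz (f θ))) : ℂ)‖ ≤ ε).card ≤
          (Finset.univ.filter fun θ : Th (n₁ * s) =>
            ε < ‖(inner ℂ (zz (f θ)) (S (zz (f θ))) : ℂ)‖).card := by
        apply Finset.card_le_card
        intro θ hθ
        rw [Finset.mem_filter] at hθ ⊢
        exact ⟨Finset.mem_univ _, not_le.1 hθ.2⟩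
      have h3 : (B1.card : ℝ) = B2.card + ((B1.filter fun θ =>
          ¬ ‖(inner ℂ (zz (f θ)) (S (zz (f θ))) : ℂ)‖ ≤ ε).card : ℝ) := by exact_mod_cast h1
      have h4 : ((B1.filter fun θ => ¬ ‖(inner ℂ (zz (f θ)) (S (zz (f θ))) : ℂ)‖ ≤ ε).card : ℝ) ≤
          ((Finset.univ.filter fun θ : Th (n₁ * s) =>
            ε < ‖(inner ℂ (zz (f θ)) (S (zz (f θ))) : ℂ)‖).card : ℝ) := by exact_mod_cast h2
      linarith
    obtain ⟨u', g, hS', B', hB', hcard'⟩ := hSTEP d n₁ s hn₁ hs1 u f hS B2 w hw hz ε hε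
    have hB'card : ρ / (2 * N) * 4 ^ n₁ ≤ B'.card := by
      refine le_trans ?_ hcard'
      apply mul_le_mul_of_nonneg_right _ (by positivity)
      -- densities
      have e1 : ρ / N ≤ (B1.card : ℝ) / 4 ^ (n₁ * s) := by
        rw [div_le_div_iff₀ (by positivity) (by positivity)]
        linarith
      have e2 : (B1.card : ℝ) / 4 ^ (n₁ * s) ≤ (B2.card : ℝ) / 4 ^ (n₁ * s) +
          2 / (((n₁ * s : ℕ) : ℝ) * ε ^ 2) := by
        have hp : (0:ℝ) < ((n₁ * s : ℕ) : ℝ) := by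
          push_cast; positivity
        have h4 : (0:ℝ) < 4 ^ (n₁ * s) := by positivity
        calc (B1.card : ℝ) / 4 ^ (n₁ * s) ≤ ((B2.card : ℝ) +
              2 * 4 ^ (n₁ * s) / (((n₁ * s : ℕ) : ℝ) * ε ^ 2)) / 4 ^ (n₁ * s) := by
              gcongr
          _ = _ := by
              field_simp
      have e3 : 2 / (((n₁ * s : ℕ) : ℝ) * ε ^ 2) ≤ ρ / (4 * N) := by
        rw [div_le_div_iff₀ (by push_cast; positivity) (by positivity)]
        push_cast
        nlinarith [mul_le_mul_of_nonneg_right hn₁R (show 0 ≤ (s:ℝ) * (ρ * ε^2) by positivity)]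
      have e4 : 1 / ((s : ℝ) * ε ^ 2) ≤ ρ / (4 * N) := by
        rw [div_le_div_iff₀ (by positivity) (by positivity)]
        nlinarith
      have e5 : ρ / (2 * N) = ρ / N - ρ / (4 * N) - ρ / (4 * N) := by
        field_simp
        ring
      rw [e5]
      linarith
    refine ⟨B'.image (f ∘ g), ?_, hIH d u' (f ∘ g) hS' B' hB'card, ?_, ?_, ?_⟩
    · intro θ hθ
      rw [Finset.mem_image] at hθ ⊢
      obtain ⟨t, ht, rfl⟩ := hθ
      refine ⟨g t, ?_, rfl⟩
      have := (hB' t ht).1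
      rw [hB2, Finset.mem_filter, hB1, Finset.mem_filter] at this
      exact this.1.1
    · refine ⟨prL u', ?_, ?_, ?_⟩
      · apply ContinuousLinearMap.opNorm_le_bound _ zero_le_one
        intro x
        rw [prL_apply, one_mul]
        exact pr_norm hS'.on x
      · intro θ hθ
        rw [Finset.mem_image] at hθ
        obtain ⟨t, ht, rfl⟩ := hθ
        rw [prL_apply, hS'.vec t]
        exact pr_fix hS'.on _ _
      · intro θ hθ
        rw [Finset.mem_image] at hθ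
        obtain ⟨t, ht, rfl⟩ := hθ
        rw [prL_apply]
        exact (hB' t ht).2
    · intro θ hθ
      rw [Finset.mem_image] at hθ
      obtain ⟨t, ht, rfl⟩ := hθ
      have := (hB' t ht).1
      rw [hB2, Finset.mem_filter] at this
      exact this.2
    · refine ⟨a, ?_⟩
      intro θ hθ
      rw [Finset.mem_image] at hθ
      obtain ⟨t, ht, rfl⟩ := hθ
      have := (hB' t ht).1
      rw [hB2, Finset.mem_filter, hB1, Finset.mem_filter] at this
      exact this.1.2

theorem t_BIG (hSTEP : S_STEP) (hMOM : S_MOM) : S_BIG := by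
  intro m N ε hN hε
  obtain ⟨n₀, hn₀, h⟩ := claim hSTEP hMOM N ε hN hε m 1 one_pos
  refine ⟨n₀, hn₀, ?_⟩
  have hS : Sys n₀ (fun b => (EuclideanSpace.single b (1:ℂ) : F n₀)) id := by
    constructor
    · exact EuclideanSpace.orthonormal_single
    · intro θ
      ext j
      simp only [id, zz, PiLp.smul_apply, smul_eq_mul, WithLp.ofLp_sum, Finset.sum_apply,
        WithLp.ofLp_smul, Pi.smul_apply]
      congr 1
      simp
  have h2 := h n₀ _ id hS Finset.univ (by
    simp [Th, Finset.card_univ, ZMod.card])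
  simpa using h2

end Pool.Agent.H17.RX
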