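import Pool.Agent.H17.RX.Stm

set_option autoImplicit false
open Filter Topology MeasureTheory
open scoped ComplexConjugate ENNReal

namespace Pool.Agent.H17.RX

theorem t_FIN (hTHR : S_THR) (hNR : S_NR) (hLPC : S_LPC) : FinalStatement := by
  intro hCH
  obtain ⟨U, z, y, J, hU, hR⟩ := hTHR hCH
  refine ⟨U, hU, ?_⟩
  intro p _ hp1 hp
  obtain ⟨R, P, hPR⟩ := hLPC p hp1 hp
  exact hNR (LpI p) R P hPR U z y J hR

end Pool.Agent.H17.RX
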