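import Pool.Agent.H17.RX.Main

/-!
# Complex generic ultrafilters
-/

set_option autoImplicit false
open Filter Topology
open scoped ENNReal

namespace Pool.Agent.H17.RX

/-- inner product of real `ℓ²` -/
noncomputable def ip (x y : L2) : ℝ := inner ℝ x y

/-- norm of real `ℓ²` -/
noncomputable def nm (x : L2) : ℝ := ‖x‖

/-- bounded operators on real `ℓ²` -/
def Opr : Type := L2 →L[ℝ] L2

/-- value of an operator -/
noncomputable def Opr.app (T : Opr) (x : L2) : L2 := (show L2 →L[ℝ] L2 from T) x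

/-- `⟪z, v⟫ z + ⟪y, v⟫ y` -/
noncomputable def proj2 (z y v : L2) : L2 := ip z v • z + ip y v • y

/-- `⟪z, T z⟫ - ⟪y, T y⟫ → 0` along `U` for all bounded `T` -/
def CondA (U : Ultrafilter ℕ) (z y : ℕ → L2) : Prop :=
  ∀ T : Opr, Tendsto (fun i => ip (z i) (T.app (z i)) - ip (y i) (T.app (y i))) U (𝓝 0)

/-- for all `v i` in the unit ball and `ε > 0` some bounded `T` has `T v i` within `ε` of
`⟪z i, v i⟫ z i + ⟪y i, v i⟫ y i` for `U`-almost all `i` -/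
def CondB (U : Ultrafilter ℕ) (z y : ℕ → L2) : Prop :=
  ∀ v : ℕ → L2, (∀ i, nm (v i) ≤ 1) → ∀ ε : ℝ, 0 < ε → ∃ T : Opr,
    ∀ᶠ i in (U : Filter ℕ), nm (T.app (v i) - proj2 (z i) (y i) (v i)) ≤ ε

/-- complex generic ultrafilters -/
def ComplexGeneric (U : Ultrafilter ℕ) : Prop :=
  ∃ (z y : ℕ → L2) (J : Opr), (∀ i, nm (z i) = 1) ∧ (∀ i, nm (y i) = 1) ∧
    (∀ i, ip (z i) (y i) = 0) ∧ (∀ i, J.app (z i) = y i) ∧ (∀ i, J.app (y i) = - z i) ∧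
    CondA U z y ∧ CondB U z y

theorem ComplexGeneric.not_refl {U : Ultrafilter ℕ} (h : ComplexGeneric U) (p : ℝ≥0∞)
    [Fact (1 ≤ p)] (hp1 : 1 < p) (hp : p ≠ ⊤) : ¬ IsRefl (algU (LpI p) U) := by
  obtain ⟨z, y, J, h1, h2, h3, h4, h5, hA, hB⟩ := h
  obtain ⟨R, P, hPR⟩ := Pool.Agent.H98.RX.t_LPC Pool.Agent.H7.RX.t_KH p hp1 hp
  exact Pool.Agent.H80.RX.t_NR (LpI p) R P hPR U z y J
    { nz := h1, ny := h2, zy := h3, Jz := h4, Jy := h5, A := hA, B := hB }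

theorem exists_generic (hCH : Cardinal.continuum.{0} = Cardinal.aleph 1) :
    ∃ U : Ultrafilter ℕ, (U : Filter ℕ) ≤ cofinite ∧ ComplexGeneric U := by
  obtain ⟨U, z, y, J, hU, h⟩ := all_THR hCH
  exact ⟨U, hU, z, y, J, h.nz, h.ny, h.zy, h.Jz, h.Jy, h.A, h.B⟩

end Pool.Agent.H17.RX
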