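import Pool.Agent.H17.RX.BIG
import Pool.Agent.H17.RX.FIN
import Pool.Agent.H18.RX.TW
import Pool.Agent.H2.RX.CARD
import Pool.Agent.H40.RX.FORC
import Pool.Agent.H40.RX.THIN
import Pool.Agent.H6.RX.STEP
import Pool.Agent.H61.RX.AVG
import Pool.Agent.H61.RX.ST1
import Pool.Agent.H7.RX.KH
import Pool.Agent.H80.RX.NR
import Pool.Agent.H83.RX.SIG
import Pool.Agent.H83.RX.TS
import Pool.Agent.H85.RX.ISO
import Pool.Agent.H85.RX.MOM
import Pool.Agent.H88.RX.THA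
import Pool.Agent.H89.RX.MON
import Pool.Agent.H89.RX.THR
import Pool.Agent.H98.RX.LPC

set_option autoImplicit false

namespace Pool.Agent.H17.RX

theorem all_STEP : S_STEP := Pool.Agent.H6.RX.t_STEP Pool.Agent.H61.RX.t_ST1 Pool.Agent.H61.RX.t_AVG

theorem all_BIG : S_BIG := t_BIG all_STEP Pool.Agent.H85.RX.t_MOM

theorem all_THA : S_THA :=
  Pool.Agent.H88.RX.t_THA Pool.Agent.H40.RX.t_FORC Pool.Agent.H2.RX.t_CARD
    Pool.Agent.H89.RX.t_MON Pool.Agent.H83.RX.t_SIG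
    (H18.RX.t_TW Pool.Agent.H89.RX.t_MON Pool.Agent.H40.RX.t_THIN) Pool.Agent.H83.RX.t_TS

theorem all_THR : S_THR :=
  Pool.Agent.H89.RX.t_THR all_THA all_BIG Pool.Agent.H85.RX.t_ISO

theorem main : FinalStatement :=
  t_FIN all_THR Pool.Agent.H80.RX.t_NR (Pool.Agent.H98.RX.t_LPC Pool.Agent.H7.RX.t_KH)

end Pool.Agent.H17.RX
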