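import Mathlib

/-!
# Project RX (MP_a60174_an): under CH the weak closure of the ultrapower operators on real `L^p`
is NOT reflexive for a suitable nonprincipal ultrafilter (all `1 < p < ∞`, the same ultrafilter)

Statements of the parts; the proof of each part is in its docstring.
-/

set_option autoImplicit false
open Filter Topology MeasureTheory
open scoped ComplexConjugate ENNReal

namespace Pool.Agent.H17.RX

/-! ## Final definitions -/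

/-- sequences that tend to zero along `U`, a subspace of the bounded sequences -/
def nullSub (X : Type) [NormedAddCommGroup X] [NormedSpace ℝ X] (U : Ultrafilter ℕ) :
    Submodule ℝ (BoundedContinuousFunction ℕ X) where
  carrier := {x | Tendsto (fun n => x n) (U : Filter ℕ) (𝓝 0)}
  add_mem' := by
    intro a b ha hb
    have := Tendsto.add ha hb
    simpa using this
  zero_mem' := by
    simp
  smul_mem' := by
    intro c a ha
    have := Tendsto.const_smul ha c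
    simpa using this

instance (X : Type) [NormedAddCommGroup X] [NormedSpace ℝ X] (U : Ultrafilter ℕ) :
    IsClosed (nullSub X U : Set (BoundedContinuousFunction ℕ X)) := by
  rw [← isSeqClosed_iff_isClosed]
  intro x a hx hxa
  show Tendsto (fun n => a n) (U : Filter ℕ) (𝓝 0)
  rw [Metric.tendsto_nhds]
  intro ε hε
  rw [Metric.tendsto_atTop] at hxa
  obtain ⟨N, hN⟩ := hxa (ε / 2) (by positivity)
  have h1 := (Metric.tendsto_nhds.1 (hx N)) (ε / 2) (by positivity)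
  filter_upwards [h1] with n hn
  have h2 := (BoundedContinuousFunction.dist_coe_le_dist (f := x N) (g := a) n).trans_lt (hN N le_rfl)
  calc dist (a n) 0 ≤ dist (a n) (x N n) + dist (x N n) 0 := dist_triangle _ _ _
    _ < ε := by rw [dist_comm (a n)]; linarith

/-- the ultrapower `X^U` -/
abbrev UPow (X : Type) [NormedAddCommGroup X] [NormedSpace ℝ X] (U : Ultrafilter ℕ) : Type :=
  BoundedContinuousFunction ℕ X ⧸ nullSub X U

lemma null_le {X : Type} [NormedAddCommGroup X] [NormedSpace ℝ X] (U : Ultrafilter ℕ)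
    (T : X →L[ℝ] X) : nullSub X U ≤
      (nullSub X U).comap (T.compLeftContinuousBounded ℕ).toLinearMap := by
  intro x hx
  have h := (T.continuous.tendsto 0).comp (show Tendsto (fun n => x n) (U : Filter ℕ) (𝓝 0) from hx)
  rw [map_zero] at h
  exact h

lemma up_bound {X : Type} [NormedAddCommGroup X] [NormedSpace ℝ X] (U : Ultrafilter ℕ)
    (T : X →L[ℝ] X) (x : UPow X U) :
    ‖(nullSub X U).mapQ (nullSub X U) (T.compLeftContinuousBounded ℕ).toLinearMap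
      (null_le U T) x‖ ≤ ‖T‖ * ‖x‖ := by
  apply le_of_forall_pos_le_add
  intro ε hε
  obtain ⟨y, rfl, hy⟩ := Submodule.Quotient.norm_mk_lt x (show 0 < ε / (‖T‖ + 1) by positivity)
  have h1 : ‖(nullSub X U).mapQ (nullSub X U) (T.compLeftContinuousBounded ℕ).toLinearMap
      (null_le U T) (Submodule.Quotient.mk y)‖ ≤ ‖T.compLeftContinuousBounded ℕ y‖ := by
    rw [Submodule.mapQ_apply]
    exact Submodule.Quotient.norm_mk_le _ _
  have h2 : ‖T.compLeftContinuousBounded ℕ y‖ ≤ ‖T‖ * ‖y‖ := by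
    rw [BoundedContinuousFunction.norm_le (by positivity)]
    intro n
    exact (T.le_opNorm _).trans (mul_le_mul_of_nonneg_left (y.norm_coe_le_norm n) (norm_nonneg _))
  have h4 : ‖T‖ * ‖y‖ ≤ ‖T‖ * (‖(Submodule.Quotient.mk y : UPow X U)‖ + ε / (‖T‖ + 1)) :=
    mul_le_mul_of_nonneg_left hy.le (norm_nonneg _)
  have h5 : ‖T‖ * (ε / (‖T‖ + 1)) ≤ ε := by
    rw [mul_div_assoc', div_le_iff₀ (by positivity)]
    nlinarith [norm_nonneg T]
  have h6 : ‖T‖ * (‖(Submodule.Quotient.mk y : UPow X U)‖ + ε / (‖T‖ + 1)) ≤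
      ‖T‖ * ‖(Submodule.Quotient.mk y : UPow X U)‖ + ε := by
    rw [mul_add]; linarith
  exact h1.trans (h2.trans (h4.trans h6))

/-- the ultrapower `T^U` of an operator: `[x] ↦ [T ∘ x]` -/
noncomputable def upMap {X : Type} [NormedAddCommGroup X] [NormedSpace ℝ X] (U : Ultrafilter ℕ)
    (T : X →L[ℝ] X) : UPow X U →L[ℝ] UPow X U :=
  LinearMap.mkContinuous ((nullSub X U).mapQ (nullSub X U)
    (T.compLeftContinuousBounded ℕ).toLinearMap (null_le U T)) ‖T‖ (up_bound U T)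

/-- closure of a set of operators in the weak operator topology -/
def wotClosure {Y : Type} [NormedAddCommGroup Y] [NormedSpace ℝ Y] (A : Set (Y →L[ℝ] Y)) :
    Set (Y →L[ℝ] Y) :=
  {S | ∀ (n : ℕ) (y : Fin n → Y) (φ : Fin n → (Y →L[ℝ] ℝ)) (ε : ℝ), 0 < ε →
    ∃ T ∈ A, ∀ i, |φ i (S (y i) - T (y i))| < ε}

/-- reflexive: every operator that leaves invariant all closed subspaces invariant under `A`
belongs to `A` -/
def IsRefl {Y : Type} [NormedAddCommGroup Y] [NormedSpace ℝ Y] (A : Set (Y →L[ℝ] Y)) : Prop :=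
  ∀ S : Y →L[ℝ] Y, (∀ N : Submodule ℝ Y, IsClosed (N : Set Y) → (∀ T ∈ A, ∀ y ∈ N, T y ∈ N) →
    ∀ y ∈ N, S y ∈ N) → S ∈ A

/-- the weak closure of the ultrapower operators -/
noncomputable def algU (X : Type) [NormedAddCommGroup X] [NormedSpace ℝ X] (U : Ultrafilter ℕ) :
    Set (UPow X U →L[ℝ] UPow X U) :=
  wotClosure (Set.range fun T : X →L[ℝ] X => upMap U T)

/-- real `L^p[0,1]` -/
abbrev LpI (p : ℝ≥0∞) : Type := Lp ℝ p ((volume : Measure ℝ).restrict (Set.Icc 0 1))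

/-- the final statement -/
def FinalStatement : Prop :=
  Cardinal.continuum.{0} = Cardinal.aleph 1 → ∃ U : Ultrafilter ℕ, (U : Filter ℕ) ≤ cofinite ∧
    ∀ (p : ℝ≥0∞) [Fact (1 ≤ p)], 1 < p → p ≠ ⊤ → ¬ IsRefl (algU (LpI p) U)

/-! ## Finite part -/

abbrev F (d : ℕ) : Type := EuclideanSpace ℂ (Fin d)
abbrev Th (d : ℕ) : Type := Fin d → ZMod 4

/-- `i^a` -/
noncomputable def chi (a : ZMod 4) : ℂ := Complex.I ^ a.val

/-- the flat unit vector with phases `θ` -/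
noncomputable def zz {d : ℕ} (θ : Th d) : F d :=
  WithLp.toLp 2 fun j => ((Real.sqrt d : ℝ) : ℂ)⁻¹ * chi (θ j)

/-- a set `C` solves the local task `(w, S, c)` -/
def Solves {d : ℕ} (ε : ℝ) (w : Th d → F d) (S : F d →L⋆[ℂ] F d) {N : ℕ} (c : Th d → Fin N)
    (C : Finset (Th d)) : Prop :=
  (∃ Q : F d →L[ℂ] F d, ‖Q‖ ≤ 1 ∧ (∀ θ ∈ C, Q (zz θ) = zz θ) ∧ ∀ θ ∈ C, ‖Q (w θ)‖ ≤ ε) ∧
  (∀ θ ∈ C, ‖inner ℂ (zz θ) (S (zz θ))‖ ≤ ε) ∧ ∃ a, ∀ θ ∈ C, c θ = a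

/-- `m`-big sets: one can solve `m` tasks one after the other and still have a nonempty set -/
def Big (ε : ℝ) (N d : ℕ) : ℕ → Finset (Th d) → Prop
  | 0, C => C.Nonempty
  | m + 1, C => ∀ (w : Th d → F d) (S : F d →L⋆[ℂ] F d) (c : Th d → Fin N),
      (∀ θ, ‖w θ‖ ≤ 1) → (∀ θ, inner ℂ (zz θ) (w θ) = 0) → ‖S‖ ≤ 1 →
      ∃ C' ⊆ C, Big ε N d m C' ∧ Solves ε w S c C'

/-- class of the coordinate `b` for the permutation `τ` -/
def cl {n s : ℕ} (τ : Equiv.Perm (Fin (n * s))) (b : Fin (n * s)) : Fin n :=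
  (finProdFinEquiv.symm (τ b)).1

/-- AVG.  Expand `‖∑_{cl b = c} x_b‖²  = ∑ x_b conj x_b' [cl b = cl b' = c]`, sum over `c` and `τ`:
for `b = b'` the number of `τ` is `(n s)!`; for `b ≠ b'` the number `K ≥ 0` of `τ` with
`cl τ b = cl τ b'` does not depend on the pair (compose `τ` with a permutation which maps one pair
to the other).  So the sum is `(n s)! ∑ |x|² + K (|∑ x|² - ∑ |x|²) ≤ (n s)! ∑ |x|²`. -/
def S_AVG : Prop := ∀ (n s : ℕ) (x : Fin (n * s) → ℂ), ∑ b, x b = 0 →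
  ∑ τ : Equiv.Perm (Fin (n * s)), ∑ c : Fin n, ‖∑ b with cl τ b = c, x b‖ ^ 2 ≤
    ((n * s).factorial : ℝ) * ∑ b, ‖x b‖ ^ 2

/-- a system: `u` orthonormal, and the vectors `n^{-1/2} ∑ χ(θ_b) u_b` are the `zz (f θ)` -/
structure Sys {d : ℕ} (n : ℕ) (u : Fin n → F d) (f : Th n → Th d) : Prop where
  on : Orthonormal ℂ u
  vec : ∀ θ : Th n, zz (f θ) = ((Real.sqrt n : ℝ) : ℂ)⁻¹ • ∑ b, chi (θ b) • u b

/-- projection to the span of `u` -/
noncomputable def pr {d n : ℕ} (u : Fin n → F d) (x : F d) : F d := ∑ b, inner ℂ (u b) x • u b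

/-- coarse vectors `u'_c = s^{-1/2} ∑_{cl τ b = c} χ(σ_b) u_b` -/
noncomputable def cu {d n s : ℕ} (u : Fin (n * s) → F d) (τ : Equiv.Perm (Fin (n * s)))
    (σ : Th (n * s)) : Fin n → F d :=
  fun c => ((Real.sqrt s : ℝ) : ℂ)⁻¹ • ∑ b with cl τ b = c, chi (σ b) • u b

/-- `g θ' = θ' ∘ cl + σ` -/
def cg {n s : ℕ} (τ : Equiv.Perm (Fin (n * s))) (σ : Th (n * s)) (θ : Th n) : Th (n * s) :=
  fun b => θ (cl τ b) + σ b

/-- ST1.  `chi (a + b) = chi a * chi b`, `‖chi a‖ = 1`, each class has `s` elements. -/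
def S_ST1 : Prop := ∀ (d n s : ℕ), 1 ≤ n → 1 ≤ s → ∀ (u : Fin (n * s) → F d)
  (f : Th (n * s) → Th d), Sys (n * s) u f → ∀ (τ : Equiv.Perm (Fin (n * s))) (σ : Th (n * s)),
  Sys n (cu u τ σ) (f ∘ cg τ σ) ∧ ∀ (θ : Th n) (x : F d),
    ‖pr (cu u τ σ) x‖ ^ 2 = (1 / (s : ℝ)) * ∑ c : Fin n,
      ‖∑ b with cl τ b = c, (starRingEnd ℂ) (chi (cg τ σ θ b)) * inner ℂ (u b) x‖ ^ 2

/-- STEP.  For a permutation `τ` and `σ : Th (n s)` put `u'_c = s^{-1/2} ∑_{cl τ b = c} χ(σ_b) u_b`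
and `g θ' = fun b => θ' (cl τ b) + σ b`; this is a system (`chi (a + b) = chi a * chi b`; each class
has `s` elements).  For `θ = g θ'` the number `‖pr u' (w (f θ))‖²` is
`∑_c (1/s) |∑_{cl b = c} x_b|²` with `x_b = conj (χ(θ_b)) ⟪u_b, w (f θ)⟫` (depends on `θ`, `τ` only),
`∑ x_b = √(n s) ⟪zz (f θ), w (f θ)⟫ = 0`, `∑ |x_b|² ≤ ‖w‖² ≤ 1` (Bessel).  For fixed `θ'`, `τ` the map
`σ ↦ g θ'` is a bijection of `Th (n s)`.  So by AVG the sum over `τ, σ, θ'` of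
`‖pr u' (w (f (g θ')))‖²` is at most `(n s)! 4^(n s) 4^n / s` and (Markov) the number of triples with
`‖pr ..‖ > ε` is at most `(n s)! 4^(n s) 4^n / (s ε²)`; the number of triples with `g θ' ∈ B` is
`(n s)! 4^n #B`.  So some `(τ, σ)` is good. -/
def S_STEP : Prop := ∀ (d n s : ℕ), 1 ≤ n → 1 ≤ s → ∀ (u : Fin (n * s) → F d)
  (f : Th (n * s) → Th d), Sys (n * s) u f → ∀ (B : Finset (Th (n * s))) (w : Th d → F d),
  (∀ θ, ‖w θ‖ ≤ 1) → (∀ θ, inner ℂ (zz θ) (w θ) = 0) → ∀ ε : ℝ, 0 < ε →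
  ∃ (u' : Fin n → F d) (g : Th n → Th (n * s)), Sys n u' (f ∘ g) ∧
    ∃ B' : Finset (Th n), (∀ θ ∈ B', g θ ∈ B ∧ ‖pr u' (w (f (g θ)))‖ ≤ ε) ∧
      ((B.card : ℝ) / 4 ^ (n * s) - 1 / (s * ε ^ 2)) * 4 ^ n ≤ B'.card

/-- MOM.  With `K b c = ⟪u_b, S u_c⟫` (`S` antilinear): `⟪zz (f θ), S (zz (f θ))⟫ =
(1/n) ∑_{b,c} conj(χ_b) conj(χ_c) K b c`, `χ_b = chi (θ b)`.  The sum over `θ` of the square of the
absolute value of the double sum: `∑_θ χ̄_b χ̄_c χ_b' χ_c'` is `0` unless `{b,c} = {b',c'}` as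
multisets, and then `4^n` (`∑_a chi a = 0`, `∑_a chi a ^ 2 = 0`, `chi a ^ 2 conj (chi a) = chi a`).
So it is at most `4^n · 2 ∑ |K|² ≤ 4^n · 2 n` (Bessel, `‖S‖ ≤ 1`).  Markov: the number of `θ` with
`|⟪zz, S zz⟫| > ε` is at most `2 · 4^n / (n ε²)`. -/
def S_MOM : Prop := ∀ (d n : ℕ), 1 ≤ n → ∀ (u : Fin n → F d) (f : Th n → Th d), Sys n u f →
  ∀ S : F d →L⋆[ℂ] F d, ‖S‖ ≤ 1 → ∀ ε : ℝ, 0 < ε →
  ((Finset.univ.filter fun θ : Th n => ε < ‖inner ℂ (zz (f θ)) (S (zz (f θ)))‖).card : ℝ) ≤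
    2 * 4 ^ n / (n * ε ^ 2)

/-- BIG.  Claim by induction on `m`: for all `ρ > 0` there is `n₀ ≥ 1` such that for every `d` and
every system with `n₀` vectors in `F d` and `B ⊆ Th n₀` with `#B ≥ ρ 4^n₀` the set `f '' B` is
`m`-big.  `m = 0`: `n₀ = 1`.  Step: let `n₁` be the number for `(m, ρ / (2 N))`, choose `s` with
`1/(s ε²) ≤ ρ / (4 N)` and `2 / (n₁ s ε²) ≤ ρ / (4 N)`, `n₀ = n₁ s`.  Given `(w, S, c)`: one colour
class of `c ∘ f` in `B` has density `≥ ρ / N` (pigeonhole), remove the bad `θ` of MOM (density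
`≤ ρ / (4 N)`), then STEP gives `B'` of density `≥ ρ / (2 N)` and `Q = pr u'` (norm `≤ 1`, orthogonal
projection, it fixes `zz (f (g θ))`).  Finally take `d = n₀` for `ρ = 1`, `u` = standard basis,
`f = id`. -/
def S_BIG : Prop := ∀ (m N : ℕ) (ε : ℝ), 1 ≤ N → 0 < ε →
  ∃ d : ℕ, 1 ≤ d ∧ Big ε N d m (Finset.univ : Finset (Th d))

/-- MON: monotonicity of `Big`. -/
def S_MON : Prop := ∀ (ε : ℝ) (N d : ℕ), 1 ≤ N → 0 < ε →
  (∀ (m : ℕ) (C C' : Finset (Th d)), C' ⊆ C → Big ε N d m C' → Big ε N d m C) ∧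
  (∀ (m : ℕ) (C : Finset (Th d)), Big ε N d (m + 1) C → Big ε N d m C)

/-! ## The forcing part -/

/-- number of colours in block `k` -/
def Nc (k : ℕ) : ℕ := ((k + 1) ^ 2 + 1) ^ k

/-- the size of the blocks: whole blocks are `k`-big -/
def IsD (d : ℕ → ℕ) : Prop :=
  ∀ k, 1 ≤ d k ∧ Big (1 / ((k : ℝ) + 1)) (Nc k) (d k) k (Finset.univ : Finset (Th (d k)))

/-- the Hilbert space `⊕ F (d k)` -/
abbrev HH (d : ℕ → ℕ) : Type := lp (fun k => F (d k)) 2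

/-- the vectors `z_i` -/
noncomputable def zg (d : ℕ → ℕ) (i : Σ k, Th (d k)) : HH d := lp.single 2 i.1 (zz i.2)

/-- conditions -/
def IsCond (d : ℕ → ℕ) (C : ∀ k, Finset (Th (d k))) : Prop :=
  ∀ m : ℕ, ∃ᶠ k : ℕ in atTop, Big (1 / ((k : ℝ) + 1)) (Nc k) (d k) m (C k)

/-- the order of the conditions -/
def leC (d : ℕ → ℕ) (C' C : ∀ k, Finset (Th (d k))) : Prop := ∀ᶠ k in atTop, C' k ⊆ C k

/-- SIG: countable decreasing sequences have lower bounds: diagonal choice of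
`k_0 < k_1 < ...` with `C_j (k_j)` `j`-big and `C_j k ⊆ C_{j-1} k ⊆ ... ` for `k ≥ k_j`; put
`C (k_j) = C_j (k_j)` and `C k = ∅` for the other `k`. -/
def S_SIG : Prop := ∀ (d : ℕ → ℕ) (C : ℕ → ∀ k, Finset (Th (d k))), (∀ j, IsCond d (C j)) →
  (∀ j, leC d (C (j + 1)) (C j)) → ∃ C', IsCond d C' ∧ ∀ j, leC d C' (C j)

/-- THIN.  Choose an ultrafilter `V ≤ atTop ⊓ 𝓟 A` and `α l = lim_V μ k l`; `∑ α ≤ 1`, so `α l → 0`.
Choose recursively `a_0 < a_1 < ...` in `A` with `α (a_j) < ε / 2^(j+1)` and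
`μ (a_j) (a_i) < ε / 2^(i+1)` for `i < j`, and `a_{j+1} > L (a_j)`. -/
def S_THIN : Prop := ∀ (A : Set ℕ), A.Infinite → ∀ μ : ℕ → ℕ → ℝ, (∀ k l, 0 ≤ μ k l) →
  (∀ k ∈ A, ∑ l ∈ Finset.range k, μ k l ≤ 1) → ∀ (L : ℕ → ℕ) (ε : ℝ), 0 < ε →
  ∃ a : ℕ → ℕ, StrictMono a ∧ (∀ j, a j ∈ A) ∧ (∀ j, L (a j) < a (j + 1)) ∧
    ∀ j, ∑ i ∈ Finset.range j, μ (a j) (a i) ≤ ε

/-- TW.  Choose first an infinite set `A` of `k` (increasing enumeration `k_j`) with `C (k_j)`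
`(j+1)`-big and `1/(k_j + 1)` small.  In block `k ∈ A` use the task
`w θ = (v_i)(k) - ⟪zz θ, (v_i)(k)⟫ zz θ` (norm `≤ 1`), `S = 0`, `c` = the vector of the integer
parts of `(k+1)² ‖(v_i)(l)‖²`, `l < k` (`finFunctionFinEquiv`), to get `C'_k` `j`-big, `Q_k`, and
numbers `μ k l = max (0, common integer part / (k+1)²)` with
`μ k l ≤ ‖(v_i)(l)‖² ≤ μ k l + 1/(k+1)²` for `θ ∈ C'_k` (so `∑_{l<k} μ k l ≤ 1`).
`L k` = a number such that `∑_{l ≥ L k} ‖(v_i)(l)‖² ≤ ε²/16` for all `i` in the finite block `k`.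
THIN gives the subsequence `a_j`; `C'` is `C'_k` for `k = a_j` (`j ≥ j₀`) and `∅` otherwise, `T` acts as
`Q_k` in the blocks `k = a_j` (`j ≥ j₀`) and as `0` in the others.  Then for `i` in block `a_j`:
own block: error `≤ 1/(k+1) ≤ ε/2`; other blocks: sum of squares at most
`ε²/16 + k/(k+1)² + ε²/16`. -/
def S_TW : Prop := ∀ (d : ℕ → ℕ) (C : ∀ k, Finset (Th (d k))), IsCond d C →
  ∀ v : (Σ k, Th (d k)) → HH d, (∀ i, ‖v i‖ ≤ 1) → ∀ ε : ℝ, 0 < ε →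
  ∃ C', IsCond d C' ∧ leC d C' C ∧ ∃ T : HH d →L[ℂ] HH d, ∀ (k : ℕ) (θ : Th (d k)), θ ∈ C' k →
    ‖T (v ⟨k, θ⟩) - inner ℂ (zg d ⟨k, θ⟩) (v ⟨k, θ⟩) • zg d ⟨k, θ⟩‖ ≤ ε

/-- TS.  In block `k` use the task `w = 0`, `S_k x = (S (single k x)) k` divided by `max 1 ‖S‖`,
`c` constant; take only `k` with `max 1 ‖S‖ / (k+1) ≤ ε`. -/
def S_TS : Prop := ∀ (d : ℕ → ℕ) (C : ∀ k, Finset (Th (d k))), IsCond d C →
  ∀ S : HH d →L⋆[ℂ] HH d, ∀ ε : ℝ, 0 < ε →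
  ∃ C', IsCond d C' ∧ leC d C' C ∧ ∀ (k : ℕ) (θ : Th (d k)), θ ∈ C' k →
    ‖inner ℂ (zg d ⟨k, θ⟩) (S (zg d ⟨k, θ⟩))‖ ≤ ε

/-- FORC (general).  Well-order the tasks in such a way that initial segments are countable
(`Cardinal.ord_eq`), and choose by well-founded recursion `g t ∈ D t` below all `g t'`, `t' < t`; these
form a chain, and a countable chain has a decreasing cofinal sequence (take successive minima), so
it has a lower bound. -/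
def S_FORC : Prop := ∀ (P : Type) (le : P → P → Prop), (∀ a, le a a) →
  (∀ a b c, le a b → le b c → le a c) → Nonempty P →
  (∀ s : ℕ → P, (∀ j, le (s (j + 1)) (s j)) → ∃ q, ∀ j, le q (s j)) →
  ∀ (t : Type) (D : t → P → Prop), Cardinal.mk t ≤ Cardinal.aleph 1 →
  (∀ (i : t) (p : P), ∃ q, le q p ∧ D i q) →
  ∃ g : t → P, (∀ i, D i (g i)) ∧ ∀ i j, le (g i) (g j) ∨ le (g j) (g i)

/-- CARD: the number of tasks.  `HH d` is separable or simply: `#(HH d) ≤ #(∀ k, F (d k)) ≤ 𝔠`; a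
continuous (anti)linear map is determined by ... (use: `lp.single` vectors with rational coordinates
are dense, so a continuous map `HH d → HH d` is determined by its values on a countable set). -/
def S_CARD : Prop := ∀ d : ℕ → ℕ,
  Cardinal.mk ((Σ k, Th (d k)) → HH d) ≤ Cardinal.continuum ∧
  Cardinal.mk (HH d →L⋆[ℂ] HH d) ≤ Cardinal.continuum

/-- THA.  Apply FORC to `P = {C // IsCond d C}` (`Finset.univ` is a condition by IsD and MON),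
tasks `(v, m)` and `(S, m)` with `ε = 1/(m+1)`.  The sets `{i | K ≤ i.1 ∧ i.2 ∈ (g t) i.1}` have the
finite intersection property (chain, `0`-big sets are nonempty, MON); `U` = an ultrafilter
containing them. -/
def S_THA : Prop := Cardinal.continuum.{0} = Cardinal.aleph 1 → ∀ d, IsD d →
  ∃ U : Ultrafilter (Σ k, Th (d k)), (U : Filter (Σ k, Th (d k))) ≤ cofinite ∧
    (∀ S : HH d →L⋆[ℂ] HH d, Tendsto (fun i => inner ℂ (zg d i) (S (zg d i))) U (𝓝 0)) ∧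
    ∀ v : (Σ k, Th (d k)) → HH d, (∀ i, ‖v i‖ ≤ 1) → ∀ ε : ℝ, 0 < ε →
      ∃ T : HH d →L[ℂ] HH d, ∀ᶠ i in (U : Filter (Σ k, Th (d k))),
        ‖T (v i) - inner ℂ (zg d i) (v i) • zg d i‖ ≤ ε

/-! ## The real part -/

/-- real `ℓ²` -/
abbrev L2 : Type := lp (fun _ : ℕ => ℝ) 2

/-- the real data of the counterexample -/
structure RData (U : Ultrafilter ℕ) (z y : ℕ → L2) (J : L2 →L[ℝ] L2) : Prop where
  nz : ∀ i, ‖z i‖ = 1
  ny : ∀ i, ‖y i‖ = 1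
  zy : ∀ i, inner ℝ (z i) (y i) = 0
  Jz : ∀ i, J (z i) = y i
  Jy : ∀ i, J (y i) = - z i
  A : ∀ T : L2 →L[ℝ] L2,
    Tendsto (fun i => inner ℝ (z i) (T (z i)) - inner ℝ (y i) (T (y i))) U (𝓝 0)
  B : ∀ v : ℕ → L2, (∀ i, ‖v i‖ ≤ 1) → ∀ ε : ℝ, 0 < ε → ∃ T : L2 →L[ℝ] L2,
    ∀ᶠ i in (U : Filter ℕ),
      ‖T (v i) - (inner ℝ (z i) (v i) • z i + inner ℝ (y i) (v i) • y i)‖ ≤ ε

/-- ISO: a real-linear isometry of `HH d` (as additive group) onto `ℓ²(ℕ, ℝ)`: real and imaginary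
parts of the coordinates, `(Σ k, Fin (d k)) × Bool ≃ ℕ` (countable and infinite as `1 ≤ d k`).
(Stated without the real module structure of `HH d`.) -/
def S_ISO : Prop := ∀ d : ℕ → ℕ, (∀ k, 1 ≤ d k) → ∃ V : HH d ≃+ L2,
  (∀ x, ‖V x‖ = ‖x‖) ∧ ∀ (r : ℝ) (x : HH d), V (((r : ℂ)) • x) = r • V x

/-- THR.  `Σ k, Th (d k) ≃ ℕ` (countable, infinite), `z = V zg`, `y = V (i zg)`, `J = V i V⁻¹`; a real
operator `T` on `ℓ²` gives `T' = V⁻¹ T V`, whose antilinear part is `S x = (T' x + i T' (i x)) / 2`, and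
`⟪z, T z⟫ - ⟪y, T y⟫ = 2 Re ⟪zg, S zg⟫` (real inner product = real part of the complex one, by
polarisation from `‖V x‖ = ‖x‖`).  `⟪zg, v⟫ zg = Re ⟪zg,v⟫ zg + Re ⟪i zg, v⟫ i zg`. -/
def S_THR : Prop := Cardinal.continuum.{0} = Cardinal.aleph 1 →
  ∃ (U : Ultrafilter ℕ) (z y : ℕ → L2) (J : L2 →L[ℝ] L2), (U : Filter ℕ) ≤ cofinite ∧ RData U z y J

/-- NR.  Let `ζ = [R z]`, `η = [R y]` in `X^U`, functionals `a [x] = lim_U ⟪z, P x⟫`,
`b [x] = lim_U ⟪y, P x⟫` on `X^U` (bounded by `‖P‖`; limits of bounded sequences along `U`).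
`S = a(·) ζ`.  (1) `S` preserves the invariant closed subspaces `N`: let `x ∈ N` with `a x ≠ 0`.
For `v = P x_i / M` (`M ≥ ‖P‖ ‖x‖`, `M > 0`) and `T` from `B`: `(R T P)^U x ∈ N` is at distance `≤ C ε`
from `a(x) ζ + b(x) η`, so this vector is in `N` (closed); apply `(R (a(x) - b(x) J) P)^U`
(`P R = 1`): `(a² + b²) ζ ∈ N`.  The operators `T^U` are in `algU` (they are in its wot-closure).
(2) `S ∉ algU`: for `T : X →L X` : `a (T^U ζ) - b (T^U η) = lim (⟪z, P T R z⟫ - ⟪y, P T R y⟫) = 0` by `A`,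
but `a (S ζ) - b (S η) = a(ζ)² - a(η) b(ζ) = 1 - 0`. -/
def S_NR : Prop := ∀ (X : Type) [NormedAddCommGroup X] [NormedSpace ℝ X]
  (R : L2 →L[ℝ] X) (P : X →L[ℝ] L2), (∀ x, P (R x) = x) →
  ∀ (U : Ultrafilter ℕ) (z y : ℕ → L2) (J : L2 →L[ℝ] L2), RData U z y J →
  ¬ IsRefl (algU X U)

/-- KH (Khinchine): the Rademacher functions on `[0,1]`.  `r n` = sign of the `n`-th binary digit:
`r n x = 1` if `⌊2^(n+1) x⌋` is even, `-1` otherwise.  Finite sums: `∫ exp (∑ c_n r_n) = ∏ cosh c_n ≤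
exp (∑ c_n² / 2)`, so `∫ |∑ c_n r_n|^p ≤ C_p` if `∑ c_n² = 1` (`|x|^p ≤ C (e^x + e^(-x))`). -/
def S_KH : Prop := ∃ r : ℕ → ℝ → ℝ, (∀ n, Measurable (r n)) ∧ (∀ n x, |r n x| = 1) ∧
  (∀ m n, m ≠ n → ∫ x in Set.Icc (0:ℝ) 1, r m x * r n x = 0) ∧
  ∀ p : ℝ, 1 ≤ p → ∃ C : ℝ, ∀ (n : ℕ) (c : ℕ → ℝ),
    ∫ x in Set.Icc (0:ℝ) 1, |∑ i ∈ Finset.range n, c i * r i x| ^ p ≤
      C * (Real.sqrt (∑ i ∈ Finset.range n, c i ^ 2)) ^ p

/-- LPC.  `R c = ∑ c_n r_n` (converges in `L^p` by KH), `P f = (∫ f r_n)_n`: by duality and KH with the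
conjugate exponent, `∑_{n<N} (∫ f r_n)² = ∫ f ∑ (∫ f r_n) r_n ≤ ‖f‖_p C_q (∑_{n<N} (∫ f r_n)²)^(1/2)`. -/
def S_LPC : Prop := ∀ (p : ℝ≥0∞) [Fact (1 ≤ p)], 1 < p → p ≠ ⊤ →
  ∃ (R : L2 →L[ℝ] LpI p) (P : LpI p →L[ℝ] L2), ∀ x, P (R x) = x

end Pool.Agent.H17.RX
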